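import Pool.Agent.Run7.h285.G.All

/-!
# Systems `f₁(n) + a₁, …, f_k(n) + a_k` of primes in ALL windows from the optimal length `T (log X)^k` on

The polynomials `f₁, …, f_k` are fixed, of arbitrary degrees `d_l ≥ 2`, with positive leading coefficients. For almost all tuples
`(a₁, …, a_k)` of constant terms, `|a_l| ≤ X`, and almost all starting points `m` in an arbitrary interval of length `M` with
`M^(d_l - 1) ≥ X^(1/3) (log X)^B` below `(X (log X)^C)^(1/d_l)`, the number of the `n`, `m < n ≤ m + H`, for which ALL the numbers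
`|f_l(n) + a_l|` are primes, is the number predicted by Bateman and Horn up to a relative error `ε`, for ALL lengths `H ≥ T (log X)^k` at
once, where `T` depends on the polynomials and on the precision `ε` alone. The order `(log X)^k` of the length is optimal.

Method. The second moment over the tuples and the windows: for constant terms that vary independently it is a sum over `n`, `n'`
of products of correlations `∑_a F(f(n) + a) F'(f(n') + a)`; with `n = m + i`, `n' = m + j` the shift `f(m + j) - f(m + i)` is a
polynomial of degree `d - 1 ≥ 1` in `m`. For `F` = primes minus their sieve model these correlations are small for almost all `m` by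
the law of the project MK of helper794 (Vinogradov's method and the circle method over a thin family of shifts; the exponential sums
over the shifts by Weyl's inequality), for `F` = the difference of two sieve models by the fundamental lemma. A telescoping sum
over the `k` factors reduces the second moment of `∏ (primes) - ∏ (models)` to them. The constants: a second moment over the tuples of the
sum of `(k - ν(p)) / p`. The passage to all lengths: the second moment decreases like `1 / H` relative to the square of the mean, the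
differences of the models need to be compared only at `O(log log X)` scales, and the counting functions are monotone.
Team: helper285 (statements, assembly), helper376 (correlations of the primes), helper212 (correlations of the models), helper973
(second moments), helper882 (fundamental lemma), helper109 (constants).
-/

set_option autoImplicit false

namespace Pool.Agent.Results.MP_b09185_nt.PolynomialsInAllWindows

open Finset Filter Topology Polynomial

/-- the box of the tuples `a` of constant terms: `|a l| ≤ X` for all `l` -/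
noncomputable def Box (k X : ℕ) : Finset (Fin k → ℤ) := Fintype.piFinset (fun _ => Icc (-(X : ℤ)) X)

/-- the number of the residues `x` modulo `p` with `p | f_l(x) + a l` for some `l` -/
noncomputable def nu {k : ℕ} (f : Fin k → ℤ[X]) (a : Fin k → ℤ) (p : ℕ) : ℕ := by
  classical exact #((range p).filter (fun x : ℕ => ∃ l, (p : ℤ) ∣ (f l).eval (x : ℤ) + a l))

/-- the constant of Bateman and Horn, cut at `y`: the product of `(1 - ν(p) / p) / (1 - 1 / p)^k` over the primes `p ≤ y` -/
noncomputable def BH {k : ℕ} (f : Fin k → ℤ[X]) (a : Fin k → ℤ) (y : ℕ) : ℝ :=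
  ∏ p ∈ (range (y + 1)).filter Nat.Prime, (1 - (nu f a p : ℝ) / p) / (1 - 1 / (p : ℝ)) ^ k

/-- the number of `n` with `m < n ≤ m + H` such that all the numbers `|f_l(n) + a l|` are primes -/
def P {k : ℕ} (f : Fin k → ℤ[X]) (a : Fin k → ℤ) (m H : ℕ) : ℕ :=
  #((Ioc m (m + H)).filter (fun n : ℕ => ∀ l, Nat.Prime ((f l).eval (n : ℤ) + a l).natAbs))

/-- the sum of `∏ 1 / log |f_l(n) + a l|` over `m < n ≤ m + H` (factors with `|f_l(n) + a l| ≤ 1` are `0` in Lean) -/
noncomputable def W {k : ℕ} (f : Fin k → ℤ[X]) (a : Fin k → ℤ) (m H : ℕ) : ℝ :=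
  ∑ n ∈ Ioc m (m + H), ∏ l, 1 / Real.log (((f l).eval (n : ℤ) + a l).natAbs : ℝ)

/-- **Bateman and Horn for systems of polynomials of arbitrary degrees, almost all constant terms, in all windows from the optimal
length on.** Let `k ≥ 1` and let `f_1, …, f_k` be integer polynomials of degrees `d_l ≥ 2` with positive leading coefficients. For every
`ε > 0` there is `T > 0` such that for every `C` there are `B` and `X₀` with the following property for all `X ≥ X₀`. Let `m₀`, `M`, `y` be
such that `X^(1/3) (log X)^B ≤ M^(d_l - 1)` and `(m₀ + M)^(d_l) ≤ X (log X)^C` for all `l`, and `log X ≤ y ≤ (log X)^C`. There is a set of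
at most `ε X^k M` pairs `(a, m)`, `|a l| ≤ X` for all `l`, `m₀ < m ≤ m₀ + M`, such that for every other such pair for which no prime
divides all the numbers `∏ (f_l(n) + a l)`: `BH f a y > 0`, and for ALL `H` with `H ≥ T (log X)^k` and `H^(d_l) ≤ X (log X)^C` for all `l`
the number of the `n`, `m < n ≤ m + H`, for which all the numbers `|f_l(n) + a l|` are primes, is
`BH f a y · ∑_{m < n ≤ m + H} ∏_l 1 / log |f_l(n) + a l|` up to a relative error `ε`. -/
theorem result : ∀ (k : ℕ) (f : Fin k → ℤ[X]), 1 ≤ k → (∀ l, 2 ≤ (f l).natDegree ∧ 0 < (f l).leadingCoeff) →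
    ∀ ε : ℝ, 0 < ε → ∃ T : ℝ, 0 < T ∧ ∀ C : ℕ, ∃ B X₀ : ℕ, ∀ X : ℕ, X₀ ≤ X →
    ∀ m₀ M : ℕ, (∀ l, (X : ℝ) ^ (1 / 3 : ℝ) * Real.log X ^ B ≤ (M : ℝ) ^ ((f l).natDegree - 1)) →
    (∀ l, ((m₀ : ℝ) + M) ^ (f l).natDegree ≤ X * Real.log X ^ C) →
    ∀ y : ℕ, Real.log X ≤ y → (y : ℝ) ≤ Real.log X ^ C →
    ∃ Bad ⊆ Box k X ×ˢ Ioc m₀ (m₀ + M), (#Bad : ℝ) ≤ ε * ((X : ℝ) ^ k * M) ∧
      ∀ a ∈ Box k X, ∀ m ∈ Ioc m₀ (m₀ + M), (a, m) ∉ Bad → (∀ p : ℕ, p.Prime → nu f a p < p) →
        0 < BH f a y ∧ ∀ H : ℕ, T * Real.log X ^ k ≤ H → (∀ l, (H : ℝ) ^ (f l).natDegree ≤ X * Real.log X ^ C) →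
          |(P f a m H : ℝ) - BH f a y * W f a m H| ≤ ε * (BH f a y * W f a m H) := by
  intro k f hk hf ε hε
  obtain ⟨T, hT, h1⟩ := Run7.h285.G.gen_all f hk hf ε hε
  refine ⟨T, hT, fun C => ?_⟩
  obtain ⟨B, X₀, h2⟩ := h1 C
  refine ⟨B, X₀, fun X hX m₀ M hM hW y hy1 hy2 => ?_⟩
  obtain ⟨Bad, hB1, hB2, hB3⟩ := h2 X hX m₀ M hM hW y hy1 hy2
  exact ⟨Bad, hB1, hB2, fun a ha m hm hb hadm => hB3 a ha m hm hb hadm⟩

end Pool.Agent.Results.MP_b09185_nt.PolynomialsInAllWindows
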