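import Mathlib
import Pool.Agent.Run7.h880.RP.Wd
import Pool.Agent.Run7.h880.RP.Big

/-!
# MP_b09185_nt: the constants `L` and `U` for random patterns

In the problem the primes are counted in `n + {1, ..., h}`, `h = (log n)^a`. Here the pattern `{1, ..., h}` is replaced by a
random pattern of `m` positions `w 0, ..., w (m - 1)`, independent and uniform in `[1, q]`, where `q` may be as small as
`N^(1/3) log^C N`. For `m = lam log² N` (the case `a = 2`) the largest and the smallest value of the ratio `R` over all the `n`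
of `(N, 2 N]` (outside of a fixed thin set, which is empty if `q ≥ N / log^a N`) tend in probability to two constants
`upper lam > 1 > lower lam`, the ones of Cramer's model; both tend to `1` as `lam → ∞`, and for `m / log² N → ∞` (in particular
for `a > 2`) all the ratios tend to `1`.
-/

set_option autoImplicit false

namespace Pool.Agent.Results.MP_b09185_nt.RandomPatterns

open Finset Filter

/-- the number of the `j` for which `n + w j` is a prime -/
def count {m : ℕ} (w : Fin m → ℕ) (n : ℕ) : ℕ := (univ.filter fun j => (n + w j).Prime).card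

/-- all the `m`-tuples of integers of `[1, q]` -/
def patterns (q m : ℕ) : Finset (Fin m → ℕ) := Fintype.piFinset fun _ => Icc 1 q

/-- the number of the primes of `(n, n + q]` is `q / log N` up to the factor `1 + O(1 / log N)` -/
def Regular (N q n : ℕ) : Prop :=
  |(((Icc 1 q).filter fun w => (n + w).Prime).card : ℝ) / q - 1 / Real.log N| ≤ 12 / Real.log N ^ 2

/-- the rate function of the Poisson law -/
noncomputable def rate (u : ℝ) : ℝ := 1 - u + u * Real.log u

/-- the upper constant of Cramer's model: the least `u ≥ 1` with `rate u ≥ 1 / lam` -/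
noncomputable def upper (lam : ℝ) : ℝ := sInf {u : ℝ | 1 ≤ u ∧ 1 ≤ lam * rate u}

/-- the lower constant of Cramer's model: the largest `u` of `[0, 1]` with `rate u ≥ 1 / lam`, and `0` if there is none -/
noncomputable def lower (lam : ℝ) : ℝ := sSup {u : ℝ | 0 ≤ u ∧ u ≤ 1 ∧ 1 ≤ lam * rate u}

/-- the ratio `R` of the problem for a pattern of `h = lam log² N` elements -/
noncomputable def ratio (lam : ℝ) (N : ℕ) {m : ℕ} (w : Fin m → ℕ) (n : ℕ) : ℝ :=
  Real.log N / (lam * Real.log N ^ 2) * count w n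

/-- over the regular integers `n` of `(N, 2 N]` the largest value of the ratio is `upper lam` and the smallest one is
`lower lam`, up to `ε` -/
def LikeCramer (lam ε : ℝ) (N q : ℕ) {m : ℕ} (w : Fin m → ℕ) : Prop :=
  (∀ n ∈ Ioc N (2 * N), Regular N q n → lower lam - ε ≤ ratio lam N w n ∧ ratio lam N w n ≤ upper lam + ε) ∧
  (∃ n ∈ Ioc N (2 * N), Regular N q n ∧ upper lam - ε ≤ ratio lam N w n) ∧
  (∃ n ∈ Ioc N (2 * N), Regular N q n ∧ ratio lam N w n ≤ lower lam + ε)

open Classical in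
theorem result :
    -- almost all integers are regular
    (∀ U : ℕ, ∃ C N₀ : ℕ, ∀ N : ℕ, N₀ ≤ N → ∀ q : ℕ, (N : ℝ) ^ (1 / 3 : ℝ) * Real.log N ^ C ≤ q → q ≤ N →
      (((Ioc N (2 * N)).filter fun n => ¬ Regular N q n).card : ℝ) ≤ N / Real.log N ^ U) ∧
    -- all of them, if `q` is large
    (∀ a : ℕ, ∃ N₀ : ℕ, ∀ N : ℕ, N₀ ≤ N → ∀ q : ℕ, (N : ℝ) ≤ q * Real.log N ^ a → q ≤ N →
      ∀ n ∈ Ioc N (2 * N), Regular N q n) ∧
    -- the law at `m = lam log² N`
    (∀ lam ε : ℝ, 0 < lam → 0 < ε → ∃ C N₀ : ℕ, ∃ K : ℝ, ∀ N : ℕ, N₀ ≤ N → ∀ q : ℕ,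
      (N : ℝ) ^ (1 / 3 : ℝ) * Real.log N ^ C ≤ q → q ≤ N → ∀ m : ℕ, |(m : ℝ) - lam * Real.log N ^ 2| ≤ 1 →
      (((patterns q m).filter fun w => ¬ LikeCramer lam ε N q w).card : ℝ) ≤ K / Real.log N * (patterns q m).card) ∧
    -- the law for longer patterns
    (∀ ε : ℝ, 0 < ε → ∃ lam₀ : ℝ, ∃ N₀ : ℕ, ∀ N : ℕ, N₀ ≤ N → ∀ q : ℕ, 1 ≤ q → ∀ m : ℕ, lam₀ * Real.log N ^ 2 ≤ m →
      (((patterns q m).filter fun w => ∃ n ∈ Ioc N (2 * N), Regular N q n ∧
        ε < |Real.log N / m * count w n - 1|).card : ℝ) ≤ (patterns q m).card / N) ∧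
    -- the constants
    (∀ lam : ℝ, 0 < lam → 1 < upper lam ∧ 0 ≤ lower lam ∧ lower lam < 1 ∧ (lower lam = 0 ↔ lam ≤ 1)) ∧
    Tendsto upper atTop (nhds 1) ∧ Tendsto lower atTop (nhds 1) := by
  have hgood : ∀ N q : ℕ, Pool.Agent.Run7.h880.RP.Good N q = (Ioc N (2 * N)).filter fun n => Regular N q n := by
    intro N q
    unfold Pool.Agent.Run7.h880.RP.Good
    exact filter_congr fun _ _ => Iff.rfl
  have hbad : ∀ N q : ℕ, (Ioc N (2 * N)).filter (fun n => ¬ Regular N q n) =
      Ioc N (2 * N) \ Pool.Agent.Run7.h880.RP.Good N q := by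
    intro N q
    rw [hgood]
    ext n
    simp only [Finset.mem_sdiff, mem_filter]
    tauto
  have hcard : ∀ q m : ℕ, ((patterns q m).card : ℝ) = (q : ℝ) ^ m := by
    intro q m
    have : (patterns q m).card = q ^ m := by
      unfold patterns
      rw [Fintype.card_piFinset]
      simp
    rw [this]
    push_cast
    rfl
  have hhits : ∀ (q m : ℕ) (w : Fin m → ℕ), w ∈ patterns q m → ∀ n : ℕ,
      Pool.Agent.Run7.h880.MK.hits (Pool.Agent.Run7.h880.RP.Aw q n) w = count w n := by
    intro q m w hw n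
    unfold Pool.Agent.Run7.h880.MK.hits count Pool.Agent.Run7.h880.RP.Aw
    congr 1
    refine filter_congr fun l _ => ?_
    rw [mem_filter]
    unfold patterns at hw
    rw [Fintype.mem_piFinset] at hw
    exact ⟨fun h => h.2, fun h => ⟨hw l, h⟩⟩
  refine ⟨?_, ?_, ?_, ?_, ?_, Pool.Agent.Run7.h880.RP.cp_tend, Pool.Agent.Run7.h880.RP.cm_tend⟩
  · intro U
    obtain ⟨C, N₀, h⟩ := Pool.Agent.Run7.h880.RP.good_card U
    refine ⟨C, N₀, fun N hN q h1 h2 => ?_⟩
    rw [hbad]
    exact h N hN q h1 h2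
  · intro a
    obtain ⟨N₀, h⟩ := Pool.Agent.Run7.h880.RP.good_all a
    refine ⟨N₀, fun N hN q h1 h2 n hn => ?_⟩
    rw [← h N hN q h1 h2, hgood, mem_filter] at hn
    exact hn.2
  · intro lam ε hlam hε
    obtain ⟨C, N₁, h1⟩ := Pool.Agent.Run7.h880.RP.good_card 1
    obtain ⟨K, hK, N₂, h2⟩ := Pool.Agent.Run7.h880.RP.main_win lam ε hlam hε
    obtain ⟨N₃, h3⟩ := eventually_atTop.1 (Pool.Agent.N384.MQ.ev_log_ge 2)
    refine ⟨C, max N₁ (max N₂ N₃), K, fun N hN q hq1 hq2 m hm => ?_⟩
    have l3 := h3 N (le_trans (le_trans (le_max_right _ _) (le_max_right _ _)) hN)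
    have hL0 : 0 < Real.log N := by linarith
    have hJ1 := h1 N (le_trans (le_max_left _ _) hN) q hq1 hq2
    rw [hcard]
    have hle : (N : ℝ) ^ (1 / 3 : ℝ) ≤ q := by
      refine le_trans ?_ hq1
      exact le_mul_of_one_le_right (by positivity) (one_le_pow₀ (by linarith))
    have hJc : (N : ℝ) / 2 ≤ (Pool.Agent.Run7.h880.RP.Good N q).card := by
      have hsub : Pool.Agent.Run7.h880.RP.Good N q ⊆ Ioc N (2 * N) := by
        rw [hgood]
        exact filter_subset _ _
      have e : ((Ioc N (2 * N) \ Pool.Agent.Run7.h880.RP.Good N q).card : ℝ) =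
          N - (Pool.Agent.Run7.h880.RP.Good N q).card := by
        have hc := card_le_card hsub
        rw [card_sdiff_of_subset hsub, Nat.cast_sub hc, Nat.card_Ioc, Nat.cast_sub (by omega)]
        push_cast
        ring
      rw [e, pow_one] at hJ1
      have : (N : ℝ) / Real.log N ≤ N / 2 := div_le_div_of_nonneg_left (Nat.cast_nonneg _) (by norm_num) l3
      linarith
    have key : ∀ w : Fin m → ℕ, (w ∈ patterns q m ∧ ¬ LikeCramer lam ε N q w) →
        ¬ Pool.Agent.Run7.h880.RP.Extreme (Pool.Agent.Run7.h880.RP.Good N q) (Pool.Agent.Run7.h880.RP.Aw q)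
          (lam * Real.log N) (Pool.Agent.Run7.h880.RP.cp lam) (Pool.Agent.Run7.h880.RP.cm lam) ε w := by
      rintro w ⟨hw, hnot⟩ ⟨a1, ⟨n2, hn2, a2⟩, a3, ⟨n4, hn4, a4⟩⟩
      refine hnot ?_
      have hr : ∀ n : ℕ, ratio lam N w n =
          (Pool.Agent.Run7.h880.MK.hits (Pool.Agent.Run7.h880.RP.Aw q n) w : ℝ) / (lam * Real.log N) := by
        intro n
        unfold ratio
        rw [hhits q m w hw]
        field_simp
      have hlL : 0 < lam * Real.log N := by positivity
      have hmem : ∀ n, n ∈ Pool.Agent.Run7.h880.RP.Good N q ↔ n ∈ Ioc N (2 * N) ∧ Regular N q n := by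
        intro n
        rw [hgood, mem_filter]
      refine ⟨fun n hn hreg => ?_, ⟨n2, ((hmem n2).1 hn2).1, ((hmem n2).1 hn2).2, ?_⟩,
        ⟨n4, ((hmem n4).1 hn4).1, ((hmem n4).1 hn4).2, ?_⟩⟩
      · have hn' := (hmem n).2 ⟨hn, hreg⟩
        rw [hr]
        exact ⟨(le_div_iff₀ hlL).2 (a3 n hn'), (div_le_iff₀ hlL).2 (a1 n hn')⟩
      · rw [hr]
        exact (le_div_iff₀ hlL).2 a2
      · rw [hr]
        exact (div_le_iff₀ hlL).2 a4
    refine le_trans ?_ (h2 N (le_trans (le_trans (le_max_left _ _) (le_max_right _ _)) hN) q hle hq2 _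
      (Finset.Subset.refl _) hJc m (hm.trans (by linarith)) (fun w => w ∈ patterns q m ∧ ¬ LikeCramer lam ε N q w) key)
    refine Nat.cast_le.2 (card_le_card fun w hw => ?_)
    simp only [Finset.mem_filter] at hw ⊢
    exact ⟨hw.1, hw⟩
  · intro ε hε
    obtain ⟨lam₀, hl0, h1⟩ := Pool.Agent.Run7.h880.RP.big ε 12 2 hε (by norm_num)
    have h4 : ∀ᶠ N : ℕ in atTop, _ := (Real.tendsto_log_atTop.comp (tendsto_natCast_atTop_atTop (R := ℝ))).eventually h1
    obtain ⟨N₂, h4⟩ := eventually_atTop.1 (h4.and (Pool.Agent.N384.MQ.ev_log_ge 1))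
    refine ⟨lam₀, max N₂ 1, fun N hN q hq m hm => ?_⟩
    obtain ⟨h5, l1⟩ := h4 N (le_trans (le_max_left _ _) hN)
    have hN1 : 1 ≤ N := le_trans (le_max_right _ _) hN
    have hNr : (0 : ℝ) < N := by exact_mod_cast hN1
    have hL0 : 0 < Real.log N := by linarith
    rw [hcard]
    have hcq : ((Icc 1 q).card : ℝ) = q := by rw [Nat.card_Icc]; push_cast; simp
    have h6 := h5 (Icc 1 q) (Pool.Agent.Run7.h880.RP.Good N q) (Pool.Agent.Run7.h880.RP.Aw q) (nonempty_Icc.2 hq)
      (fun j _ => filter_subset _ _) (by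
        intro j hj
        rw [hgood, mem_filter] at hj
        rw [hcq]
        exact hj.2) (by
        show ((Pool.Agent.Run7.h880.RP.Good N q).card : ℝ) ≤ Real.exp (2 * Real.log N)
        have h7 : Pool.Agent.Run7.h880.RP.Good N q ⊆ Ioc N (2 * N) := by
          rw [hgood]
          exact filter_subset _ _
        have h8 : ((Pool.Agent.Run7.h880.RP.Good N q).card : ℝ) ≤ N := by
          have := card_le_card h7
          rw [Nat.card_Ioc] at this
          exact_mod_cast (by omega : (Pool.Agent.Run7.h880.RP.Good N q).card ≤ N)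
        refine h8.trans ?_
        calc (N : ℝ) = Real.exp (Real.log N) := (Real.exp_log hNr).symm
          _ ≤ _ := Real.exp_le_exp.2 (by linarith)) m hm
      (fun w => w ∈ patterns q m ∧ ∃ n ∈ Ioc N (2 * N), Regular N q n ∧ ε < |Real.log N / m * count w n - 1|) (by
        rintro w ⟨hw, n, hn, hreg, h9⟩
        refine ⟨n, by rw [hgood, mem_filter]; exact ⟨hn, hreg⟩, ?_⟩
        rw [hhits q m w hw]
        show ε < |(count w n : ℝ) / (m / Real.log N) - 1|
        have e : (count w n : ℝ) / (m / Real.log N) = Real.log N / m * count w n := by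
          rw [div_div_eq_mul_div]
          ring
        rw [e]
        exact h9)
    rw [hcq] at h6
    have h7 : Real.exp (-Real.log N) * (q : ℝ) ^ m = (q : ℝ) ^ m / N := by
      rw [Real.exp_neg, Real.exp_log hNr]
      ring
    refine le_trans ?_ (h6.trans (le_of_eq h7))
    refine Nat.cast_le.2 (card_le_card fun w hw => ?_)
    simp only [Finset.mem_filter] at hw ⊢
    exact ⟨hw.1, hw⟩
  · intro lam hlam
    exact ⟨Pool.Agent.Run7.h880.RP.one_lt_cp hlam, Pool.Agent.Run7.h880.RP.cm_nonneg lam,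
      Pool.Agent.Run7.h880.RP.cm_lt_one, Pool.Agent.Run7.h880.RP.cm_zero⟩

end Pool.Agent.Results.MP_b09185_nt.RandomPatterns
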