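import Pool.Agent.Run7.h52.M2
import Pool.Agent.Run7.h52.M4

/-!
# MP_b09185_nt: square weights, intervals of length `(log N) ^ a` and the limits `a → ∞`

A square weight of level `X` is a finite sum of squares `V ^ 2` of functions of level `R`, each restricted to a
residue class modulo `d`, with `d R ^ 2 ≤ X`.  The matrices of Maier (one residue class), the weights of Selberg, of
Goldston, Pintz and Yildirim and of Maynard and Tao are of this form.  Let `r(n)` be the number of integers in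
`(n, n + Y]` without a prime factor `≤ z`, `log N ≤ z ≤ N ^ c`, and `W(z) Y` its expected value.  The problem asks
whether the limits `L_a < 1 < U_a` of primes in intervals of length `(log x) ^ a` tend to `1` as `a → ∞`.  We answer
the analogous question for square weights of level `N ^ θ`, `θ < 1`, with the rate: for every `a > 2` and all
`Y` between `(log N) ^ a` and `(log N) ^ (a + κ)`

* every square weight lives, up to a share `ε` of its mass, on `n` with `|r(n) / (W(z) Y) - 1| ≤ 2 e ^ γ / Γ(a + 1) + ε`;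
* there are residue classes modulo some `d ≤ N ^ θ` which, up to a share `ε`, consist of `n` with
  `r(n) ≥ (1 + δ_a) W(z) Y`, and classes which consist of `n` with `r(n) ≤ (1 - δ_a) W(z) Y`, where
  `δ_a = 1 / (4 (32 m) ^ m m!)`, `m = ⌊a⌋ + 3`.

So the largest relative deviation seen by square weights at the exponent `a` is `exp (- C(a) a log a)` with `C(a)` between
`1 + o(1)` and `2 + o(1)`.
-/

set_option autoImplicit false

namespace Pool.Agent.Results.MP_b09185_nt.SquareWeightMaierLimits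

/-- `V` is a sum of functions of `n mod q`, `q ≤ R` -/
def HasLevel (R : ℕ) (V : ℤ → ℝ) : Prop :=
  ∃ c : ℕ → ℤ → ℝ, ∀ n : ℤ, V n = ∑ q ∈ Finset.Icc 1 R, c q (n % (q : ℤ))

/-- a finite sum of squares `V ^ 2` restricted to arithmetic progressions of modulus `d`, with
`V` of level `R` and `d * R ^ 2 ≤ X` -/
def SquareWeight (X : ℝ) (w : ℤ → ℝ) : Prop :=
  ∃ (J : ℕ) (d R : Fin J → ℕ) (a : Fin J → ℤ) (V : Fin J → ℤ → ℝ),
    (∀ j, 1 ≤ d j ∧ 1 ≤ R j ∧ (d j : ℝ) * (R j : ℝ) ^ 2 ≤ X ∧ HasLevel (R j) (V j)) ∧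
    ∀ n : ℤ, w n = ∑ j, if (d j : ℤ) ∣ n - a j then (V j n) ^ 2 else 0

open Classical in
/-- the number of the integers in `(n, n + Y]` without a prime factor `≤ z` -/
noncomputable def roughCount (z Y : ℕ) (n : ℤ) : ℕ :=
  ((Finset.Ioc n (n + Y)).filter fun m => ∀ p ∈ (Finset.Icc 1 z).filter Nat.Prime, ¬ (p : ℤ) ∣ m).card

/-- `∏_{p ≤ z} (1 - 1/p)` -/
noncomputable def W (z : ℕ) : ℝ := ∏ p ∈ (Finset.Icc 1 z).filter Nat.Prime, (1 - 1 / (p : ℝ))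

/-- `1 / (4 (32 m) ^ m m!)`, `m = ⌊a⌋ + 3` -/
noncomputable def dev (a : ℝ) : ℝ :=
  1 / (4 * (32 * ((⌊a⌋₊ : ℝ) + 3)) ^ (⌊a⌋₊ + 3) * (Nat.factorial (⌊a⌋₊ + 3) : ℕ))

theorem result (a : ℝ) (ha : 2 < a) :
    ∃ κ : ℝ, 0 < κ ∧ ∀ θ ε : ℝ, 0 < θ → θ < 1 → 0 < ε →
    ∃ c T : ℝ, 0 < c ∧ ∀ N : ℕ, T ≤ N → ∀ Y z : ℕ,
    (Real.log N) ^ a ≤ Y → (Y : ℝ) ≤ (Real.log N) ^ (a + κ) → Real.log N ≤ z → (z : ℝ) ≤ (N : ℝ) ^ c →
    (∀ w : ℤ → ℝ, SquareWeight ((N : ℝ) ^ θ) w → ∀ x : ℤ,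
      ∑ n ∈ (Finset.Ioc x (x + N)).filter (fun n =>
        (2 * Real.exp Real.eulerMascheroniConstant / Real.Gamma (a + 1) + ε) * (W z * Y) < |(roughCount z Y n : ℝ) - W z * Y|), w n
        ≤ ε * ∑ n ∈ Finset.Ioc x (x + N), w n) ∧
    ∃ d : ℕ, 1 ≤ d ∧ (d : ℝ) ≤ (N : ℝ) ^ θ ∧
    (∃ b : ℤ, ∀ x : ℤ,
      (1 - ε) * (((Finset.Ioc x (x + N)).filter fun n => (d : ℤ) ∣ n - b).card : ℝ) ≤
      (((Finset.Ioc x (x + N)).filter fun n => (d : ℤ) ∣ n - b ∧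
        (1 + dev a) * (W z * Y) ≤ (roughCount z Y n : ℝ)).card : ℝ)) ∧
    (∃ b : ℤ, ∀ x : ℤ,
      (1 - ε) * (((Finset.Ioc x (x + N)).filter fun n => (d : ℤ) ∣ n - b).card : ℝ) ≤
      (((Finset.Ioc x (x + N)).filter fun n => (d : ℤ) ∣ n - b ∧
        (roughCount z Y n : ℝ) ≤ (1 - dev a) * (W z * Y)).card : ℝ)) := by
  have e : roughCount = Run7.h52.U20.RC := by
    funext z Y n
    unfold roughCount Run7.h52.U20.RC
    congr 1
    exact Finset.filter_congr_decidable _ _ _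
  have eW : ∀ z : ℕ, W z = Run7.h52.E4.Wg 1 z := fun z => (Run7.h52.E11.Wg_one z).symm
  have eR : ∀ (z Y : ℕ) (n : ℤ), roughCount z Y n = Run7.h52.E4.Rg 1 z Y n := fun z Y n => by
    rw [e, Run7.h52.E11.Rg_one]
  simp only [eW, eR]
  have ed : dev a = Run7.h52.M1.dl a := rfl
  rw [ed]
  obtain ⟨κ, hκ, H⟩ := Run7.h52.M2.twoIE ha
  refine ⟨κ, hκ, fun θ ε hθ0 hθ1 hε => ?_⟩
  obtain ⟨c₁, hc₁, T₁, h₁⟩ := Run7.h52.M4.explM (θ := θ) (A := a) (ε := ε) (B := 1) zero_le_one hθ0 hθ1 ha hε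
  obtain ⟨c₂, hc₂, T₂, hT₂, h₂⟩ := H (B := 1) hθ0 hθ1 zero_le_one hε
  refine ⟨min c₁ c₂, max T₁ T₂, lt_min hc₁ hc₂, fun N hN Y z hY1 hY2 hz1 hz2 => ?_⟩
  have hN1 : T₁ ≤ N := (le_max_left _ _).trans hN
  have hN2 : T₂ ≤ N := (le_max_right _ _).trans hN
  have hN3 : (1 : ℝ) ≤ N := by linarith
  have hg : ((1 : ℕ) : ℝ) ≤ (N : ℝ) ^ (1 : ℝ) := by rw [Real.rpow_one]; exact_mod_cast hN3
  have hz3 : (z : ℝ) ≤ (N : ℝ) ^ c₁ := hz2.trans (Real.rpow_le_rpow_of_exponent_le hN3 (min_le_left _ _))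
  have hz4 : (z : ℝ) ≤ (N : ℝ) ^ c₂ := hz2.trans (Real.rpow_le_rpow_of_exponent_le hN3 (min_le_right _ _))
  refine ⟨fun w hw x => (h₁ N hN1 Y z hY1 hz3 1 le_rfl hg w hw x).1, ?_⟩
  obtain ⟨d, hd1, hd2, h3⟩ := h₂ N hN2 Y z hY1 hY2 hz1 hz4
  refine ⟨d, hd1, hd2, h3 1 le_rfl hg fun p hp _ h => ?_⟩
  exact hp.one_lt.ne' (Nat.dvd_one.1 h)

end Pool.Agent.Results.MP_b09185_nt.SquareWeightMaierLimits
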