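import Pool.Agent.Run7.h52.U21

/-!
# MP_b09185_nt: rough numbers in intervals of length `(log N) ^ A` and square weights

A square weight of level `X` is a finite sum of squares `V ^ 2` of functions of level `R`, each restricted to a
residue class modulo `d`, with `d R ^ 2 ≤ X`.  The weights of Selberg, of Goldston, Pintz and Yildirim and of
Maynard and Tao are of this form, and so are the matrices of Maier (one residue class).  Let
`r(n)` be the number of integers in `(n, n + Y]` without a prime factor `≤ z`, `z ≤ N ^ c`.  We prove: for every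
`θ < 1`, every order `m` and every `κ > 0` there is an `A` such that for `Y ≥ (log N) ^ A`
the weighted mean of `|r(n) - W(z) Y| ^ m` over any interval of `N` integers is at most `κ (W(z) Y) ^ m`, for
all square weights of level `N ^ θ`.
-/

set_option autoImplicit false

namespace Pool.Agent.Results.MP_b09185_nt.SquareWeightMoments

/-- `V` is a sum of functions of `n mod q`, `q ≤ R` -/
def HasLevel (R : ℕ) (V : ℤ → ℝ) : Prop :=
  ∃ c : ℕ → ℤ → ℝ, ∀ n : ℤ, V n = ∑ q ∈ Finset.Icc 1 R, c q (n % (q : ℤ))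

/-- a finite sum of squares `V ^ 2` restricted to arithmetic progressions of modulus `d`, with
`V` of level `R` and `d * R ^ 2 ≤ X` -/
def SquareWeight (X : ℝ) (w : ℤ → ℝ) : Prop :=
  ∃ (J : ℕ) (d R : Fin J → ℕ) (a : Fin J → ℤ) (V : Fin J → ℤ → ℝ),
    (∀ j, 1 ≤ d j ∧ 1 ≤ R j ∧ (d j : ℝ) * (R j : ℝ) ^ 2 ≤ X ∧ HasLevel (R j) (V j)) ∧
    ∀ n : ℤ, w n = ∑ j, if (d j : ℤ) ∣ n - a j then (V j n) ^ 2 else 0

open Classical in
/-- the number of the integers in `(n, n + Y]` without a prime factor `≤ z` -/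
noncomputable def roughCount (z Y : ℕ) (n : ℤ) : ℕ :=
  ((Finset.Ioc n (n + Y)).filter fun m => ∀ p ∈ (Finset.Icc 1 z).filter Nat.Prime, ¬ (p : ℤ) ∣ m).card

/-- `∏_{p ≤ z} (1 - 1/p)` -/
noncomputable def W (z : ℕ) : ℝ := ∏ p ∈ (Finset.Icc 1 z).filter Nat.Prime, (1 - 1 / (p : ℝ))

theorem result (θ κ : ℝ) (hθ0 : 0 < θ) (hθ1 : θ < 1) (hκ : 0 < κ) (m : ℕ) (hm : 1 ≤ m) :
    ∃ (A : ℕ) (c : ℝ), 0 < c ∧ ∃ T : ℝ, ∀ N : ℕ, T ≤ N → ∀ Y z : ℕ,
    (Real.log N) ^ A ≤ Y → (z : ℝ) ≤ (N : ℝ) ^ c →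
    ∀ w : ℤ → ℝ, SquareWeight ((N : ℝ) ^ θ) w → ∀ x : ℤ,
    ∑ n ∈ Finset.Ioc x (x + N), w n * |(roughCount z Y n : ℝ) - W z * Y| ^ m
      ≤ κ * (W z * Y) ^ m * ∑ n ∈ Finset.Ioc x (x + N), w n := by
  have e : ∀ (z Y : ℕ) (n : ℤ), roughCount z Y n = Run7.h52.U20.RC z Y n := by
    intro z Y n
    unfold roughCount Run7.h52.U20.RC
    congr 1
    exact Finset.filter_congr_decidable _ _ _
  simp only [e]
  exact Run7.h52.U21.momT hθ0 hθ1 hκ m hm

end Pool.Agent.Results.MP_b09185_nt.SquareWeightMoments
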